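import Pool.Agent.W606.UB.Stm

/-!
# Sliding (part E of project UB)
-/

set_option autoImplicit false

namespace KN

namespace UB

/-- the squared distance after sliding -/
def sdist (t : ℤ × ℤ) (s : ℤ) (p q : Z3) : ℤ := dt (q + (s, t) - p) (q + (s, t) - p)

theorem sdist_eq (t : ℤ × ℤ) (s : ℤ) (p q : Z3) :
    sdist t s p q = (q.1 + s - p.1) ^ 2 + (q.2.1 + t.1 - p.2.1) ^ 2 + (q.2.2 + t.2 - p.2.2) ^ 2 := by
  simp only [sdist, dt, Prod.fst_sub, Prod.snd_sub, Prod.fst_add, Prod.snd_add]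
  ring

theorem sdist_shift (t : ℤ × ℤ) (s j : ℤ) (p q : Z3) :
    dt (q + (s, t) + (j, 0, 0) - p) (q + (s, t) + (j, 0, 0) - p) = sdist t (s + j) p q := by
  rw [sdist_eq]
  simp only [dt, Prod.fst_sub, Prod.snd_sub, Prod.fst_add, Prod.snd_add]
  ring

theorem slide_main : P_slide := by
  intro R P Q t hPQ
  obtain ⟨p0, hp0, q0, hq0, h0⟩ := hPQ
  have hinh : ∃ s : ℤ, ∃ p ∈ P, ∃ q ∈ Q, sdist t s p q ≤ ((R : ℤ) + 1) ^ 2 := by
    refine ⟨p0.1 - q0.1, p0, hp0, q0, hq0, ?_⟩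
    rw [sdist_eq]
    have h1 : p0.2.1 = q0.2.1 + t.1 := by rw [h0]; rfl
    have h2 : p0.2.2 = q0.2.2 + t.2 := by rw [h0]; rfl
    rw [h1, h2]
    ring_nf
    positivity
  have hbdd : ∃ b : ℤ, ∀ s : ℤ, (∃ p ∈ P, ∃ q ∈ Q, sdist t s p q ≤ ((R : ℤ) + 1) ^ 2) → s ≤ b := by
    refine ⟨(R : ℤ) + 1 + ∑ p ∈ P, |p.1| + ∑ q ∈ Q, |q.1|, ?_⟩
    rintro s ⟨p, hp, q, hq, h⟩
    rw [sdist_eq] at h
    have h1 : q.1 + s - p.1 ≤ (R : ℤ) + 1 := by
      by_contra hc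
      push Not at hc
      have : ((R : ℤ) + 1) ^ 2 < (q.1 + s - p.1) ^ 2 := by
        have hR : (0 : ℤ) ≤ R := by positivity
        nlinarith
      nlinarith [sq_nonneg (q.2.1 + t.1 - p.2.1), sq_nonneg (q.2.2 + t.2 - p.2.2)]
    have h2 : |p.1| ≤ ∑ p ∈ P, |p.1| :=
      Finset.single_le_sum (f := fun p : Z3 => |p.1|) (fun i _ => abs_nonneg _) hp
    have h3 : |q.1| ≤ ∑ q ∈ Q, |q.1| :=
      Finset.single_le_sum (f := fun q : Z3 => |q.1|) (fun i _ => abs_nonneg _) hq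
    have h4 := le_abs_self p.1
    have h5 := neg_abs_le q.1
    linarith
  obtain ⟨s, hs, hmax⟩ := Int.exists_greatest_of_bdd hbdd hinh
  obtain ⟨p1, hp1, q1, hq1, h1⟩ := hs
  obtain ⟨⟨p, q⟩, hpq, hmin⟩ := Finset.exists_min_image (P ×ˢ Q) (fun x => sdist t s x.1 x.2)
    ⟨(p1, q1), Finset.mem_product.2 ⟨hp1, hq1⟩⟩
  obtain ⟨hp, hq⟩ := Finset.mem_product.1 hpq
  have hle : sdist t s p q ≤ ((R : ℤ) + 1) ^ 2 :=
    (hmin (p1, q1) (Finset.mem_product.2 ⟨hp1, hq1⟩)).trans h1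
  have hnext : ∀ p' ∈ P, ∀ q' ∈ Q, ∀ j : ℤ, 1 ≤ j → ((R : ℤ) + 1) ^ 2 < sdist t (s + j) p' q' := by
    intro p' hp' q' hq' j hj
    by_contra hc
    push Not at hc
    have := hmax (s + j) ⟨p', hp', q', hq', hc⟩
    linarith
  have hn1 := hnext p hp q hq 1 le_rfl
  have hR : (0 : ℤ) ≤ R := by positivity
  refine ⟨s, p, q, hp, hq, ?_, hle, ?_, ?_⟩
  · by_contra hc
    push Not at hc
    have hc' : sdist t s p q ≤ (R : ℤ) ^ 2 := hc
    rw [sdist_eq] at hc' hn1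
    have h2 : q.1 + s - p.1 ≤ R := by
      by_contra hcc
      push Not at hcc
      have : (R : ℤ) ^ 2 < (q.1 + s - p.1) ^ 2 := by nlinarith
      nlinarith [sq_nonneg (q.2.1 + t.1 - p.2.1), sq_nonneg (q.2.2 + t.2 - p.2.2)]
    nlinarith
  · by_contra hc
    push Not at hc
    have hc' : q.1 + s - p.1 < 0 := by
      simpa only [Prod.fst_sub, Prod.fst_add] using hc
    rw [sdist_eq] at hle hn1
    nlinarith
  · intro p' hp' q' hq' j hj
    rw [sdist_shift]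
    rcases hj.eq_or_lt with h | h
    · rw [← h, add_zero]
      exact hmin (p', q') (Finset.mem_product.2 ⟨hp', hq'⟩)
    · exact hle.trans (hnext p' hp' q' hq' j (by omega)).le

end UB

end KN
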